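import Pool.Agent.H66.GUA.Targets
import Pool.Agent.H60.DP.GS

/-!
# MP_c59857_nt, board gua, row GE: the geometric sum
-/

set_option autoImplicit false

open Finset Filter Topology

namespace Pool.Agent.H46.GUA

open Pool.Agent.H31.DP
open Pool.Agent.H31.DPD
open Pool.Agent.H66.GUA
open Pool.Agent.H60.DP (ee_add ee_nat_mul ee_int norm_ee four_mul_le)

theorem sum_geom (Q M : ℕ) (ψ : ℝ) (hQ : 0 < Q) : ∑ s ∈ Pool.Agent.H31.DP.mul Q M, ee (s * ψ) =
    ∑ i ∈ Finset.range (2 * (M / Q) + 1), ee (-((M / Q : ℕ) * (Q * ψ))) * ee (Q * ψ) ^ i := by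
  obtain ⟨J, hJ⟩ : ∃ J : ℕ, J = M / Q := ⟨_, rfl⟩
  rw [← hJ]
  symm
  refine Finset.sum_bij (fun i _ => (Q : ℤ) * ((i : ℤ) - J)) ?_ ?_ ?_ ?_
  · intro i hi
    rw [Finset.mem_range] at hi
    have h1 : J * Q ≤ M := by rw [hJ]; exact Nat.div_mul_le_self M Q
    have h1' : (J : ℤ) * Q ≤ M := by exact_mod_cast h1
    have h2 : (i : ℤ) - J ≤ J := by omega
    have h3 : -(J : ℤ) ≤ (i : ℤ) - J := by omega
    have hQ' : (0 : ℤ) ≤ Q := by positivity
    rw [Pool.Agent.H31.DP.mul, Finset.mem_filter, Finset.mem_Icc]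
    refine ⟨⟨?_, ?_⟩, Dvd.intro _ rfl⟩
    · have := mul_le_mul_of_nonneg_left h3 hQ'
      linarith
    · have := mul_le_mul_of_nonneg_left h2 hQ'
      linarith
  · intro i hi j hj hij
    have hQ' : (Q : ℤ) ≠ 0 := by exact_mod_cast hQ.ne'
    have := mul_left_cancel₀ hQ' hij
    omega
  · intro s hs
    rw [Pool.Agent.H31.DP.mul, Finset.mem_filter, Finset.mem_Icc] at hs
    obtain ⟨⟨h1, h2⟩, t, rfl⟩ := hs
    have hQ' : (0 : ℤ) < Q := by exact_mod_cast hQ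
    have hJ' : (J : ℤ) = (M : ℤ) / Q := by rw [hJ, Int.natCast_div]
    have h3 : t ≤ J := by
      rw [hJ']
      exact (Int.le_ediv_iff_mul_le hQ').2 (by linarith)
    have h4 : -t ≤ J := by
      rw [hJ']
      exact (Int.le_ediv_iff_mul_le hQ').2 (by linarith)
    refine ⟨(t + J).toNat, ?_, ?_⟩
    · rw [Finset.mem_range]
      omega
    · have h5 : ((t + J).toNat : ℤ) = t + J := Int.toNat_of_nonneg (by omega)
      rw [h5]
      ring
  · intro i _
    rw [← ee_nat_mul, ← ee_add]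
    congr 1
    push_cast
    ring

theorem pf_GE : T_GE := by
  intro Q M q ρ ψ hQ hq hρ
  rw [sum_geom Q M ψ hQ, hρ]
  obtain ⟨J, hJ⟩ : ∃ J : ℕ, J = M / Q := ⟨_, rfl⟩
  rw [← hJ, ← Finset.mul_sum, norm_mul, norm_ee, one_mul]
  have hqR : (0 : ℝ) < q := by exact_mod_cast hq
  have : NeZero q := ⟨hq.ne'⟩
  constructor
  · refine (norm_sum_le _ _).trans ?_
    rw [Finset.sum_congr rfl (g := fun _ => (1 : ℝ)) (fun i _ => by
      rw [norm_pow, norm_ee, one_pow])]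
    rw [Finset.sum_const, Finset.card_range, nsmul_eq_mul, mul_one]
    push_cast
    exact le_rfl
  · obtain ⟨m, hm⟩ : ∃ m : ℤ, m = (ρ : ZMod q).valMinAbs := ⟨_, rfl⟩
    rw [← hm]
    obtain ⟨k, hk⟩ : ∃ k : ℤ, ρ = m + q * k := by
      have h1 : ((m : ℤ) : ZMod q) = (ρ : ZMod q) := by
        rw [hm]; exact ZMod.coe_valMinAbs _
      have h2 : (q : ℤ) ∣ ρ - m := by
        rw [← ZMod.intCast_zmod_eq_zero_iff_dvd, Int.cast_sub, h1, sub_self]
      obtain ⟨k, hk⟩ := h2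
      exact ⟨k, by linarith⟩
    have hmq : |(m : ℝ) / q| ≤ 1 / 2 := by
      have h1 := ZMod.valMinAbs_mem_Ioc (ρ : ZMod q)
      rw [← hm] at h1
      obtain ⟨h2, h3⟩ := h1
      have h2' : -(q : ℝ) < m * 2 := by exact_mod_cast h2
      have h3' : (m : ℝ) * 2 ≤ q := by exact_mod_cast h3
      rw [abs_div, abs_of_pos hqR, div_le_iff₀ hqR, abs_le]
      constructor <;> linarith
    have he : ee ((ρ : ℝ) / q) = ee ((m : ℝ) / q) := by
      have h1 : (ρ : ℝ) / q = (m : ℝ) / q + (k : ℝ) := by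
        rw [hk]
        push_cast
        field_simp
      rw [h1, ee_add, ee_int, mul_one]
    rw [he]
    have h4 := four_mul_le _ hmq
    have hgeo := mul_geom_sum (ee ((m : ℝ) / q)) (2 * J + 1)
    have h5 : ‖ee ((m : ℝ) / q) - 1‖ * ‖∑ i ∈ Finset.range (2 * J + 1), ee ((m : ℝ) / q) ^ i‖ ≤
        2 := by
      rw [← norm_mul, hgeo]
      refine (norm_sub_le _ _).trans ?_
      rw [norm_pow, norm_ee, one_pow, norm_one]
      norm_num
    have h6 : 4 * |(m : ℝ) / q| * ‖∑ i ∈ Finset.range (2 * J + 1), ee ((m : ℝ) / q) ^ i‖ ≤ 2 :=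
      (mul_le_mul_of_nonneg_right h4 (norm_nonneg _)).trans h5
    rw [abs_div, abs_of_pos hqR] at h6
    have h7 : 4 * (|(m : ℝ)| / q) * ‖∑ i ∈ Finset.range (2 * J + 1), ee ((m : ℝ) / q) ^ i‖ =
        4 * |(m : ℝ)| * ‖∑ i ∈ Finset.range (2 * J + 1), ee ((m : ℝ) / q) ^ i‖ / q := by
      ring
    rw [h7, div_le_iff₀ hqR] at h6
    rw [Int.cast_abs]
    linarith

end Pool.Agent.H46.GUA
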